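import Pool.Agent.Helper69.AS.All

set_option autoImplicit false

namespace Pool.Agent.Results.MP_d112a4_gt.AsymptoticSlices

open Pool.Agent.Helper35.PM Pool.Agent.Helper69.AS Filter Set MeasureTheory Topology
open scoped ENNReal

/-- Let `F(z, w)`, `|z|, |w| < 1`, be quasifuchsian, holomorphic in `z`, and equivariant under a cocompact set `A` of
automorphisms `(z, w) ↦ (T z, conj (T (conj w)))`, `T z = (c z + a)/(1 + conj a c z)`, which act on the group by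
automorphisms `φ` (up to conjugacy and signs).  Then for every `R` there is a constant `C = C(R, ρ₀)`, independent of
the genus, such that for all `N ≥ 1` there is a `w` at hyperbolic distance at most `C N` from `0` with
`d_P(F(0, w), F(z, w)) ≤ C √((2 - h)/(h N))` for all `z` at hyperbolic distance at most `R` from `0`, where
`h` is the entropy of `F(0, 0)`. -/
theorem result :
    (∀ g : ℕ, 2 ≤ g → ∃ U : (SurfaceGroup g →* SL) → Ultrafilter ℝ, ∀ ρ, IsQF ρ → Adapted (U ρ) ρ) ∧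
    ∀ R ρ₀ : ℝ, 0 ≤ R → 0 ≤ ρ₀ → ρ₀ < 1 → ∃ C : ℝ, 0 < C ∧ ∀ g : ℕ, 2 ≤ g →
      ∀ U : (SurfaceGroup g →* SL) → Ultrafilter ℝ, (∀ ρ, IsQF ρ → Adapted (U ρ) ρ) →
      ∀ (F : ℂ → ℂ → SurfaceGroup g →* SL) (A : Set (ℂ × ℂ)),
      (∀ w : ℂ, ‖w‖ < 1 → HolDisc (fun z => F z w)) →
      (∀ x ∈ A, ‖x.1‖ = 1 ∧ ‖x.2‖ < 1) →
      (∀ x ∈ A, ∃ φ : SurfaceGroup g ≃* SurfaceGroup g, ∀ z w : ℂ, ‖z‖ < 1 → ‖w‖ < 1 →
        SameUpTo φ (F z w) (F (autT x.1 x.2 z) (autM x.1 x.2 w))) →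
      (∀ z : ℂ, ‖z‖ < 1 → ∃ x ∈ A, ‖mob (-z) x.2‖ ≤ ρ₀) →
      ∀ N : ℕ, 1 ≤ N → ∃ w : ℂ, ‖w‖ < 1 ∧ (1 + ‖w‖) / (1 - ‖w‖) ≤ Real.exp (C * N) ∧
        ∀ z : ℂ, ‖z‖ ≤ Real.tanh (R / 2) →
          pressureDist U (F 0 w) (F z w) ≤
            ENNReal.ofReal (C * Real.sqrt ((2 - ent (F 0 0)) / (ent (F 0 0) * N))) :=
  ⟨exists_family, th_⟩

end Pool.Agent.Results.MP_d112a4_gt.AsymptoticSlices
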