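import Pool.Agent.Helper17.QD.Final

set_option autoImplicit false

namespace Pool.Agent.Results.MP_d112a4_gt.CoarseDensity

open Pool.Agent.Helper35.PM
open scoped ENNReal

/-- The Fuchsian locus is coarsely dense in the quasifuchsian space of a closed surface of genus `g ≥ 2`
with the pressure metric: there is `D` such that every quasifuchsian representation lies within
pressure distance `D` of a Fuchsian one. -/
theorem result (g : ℕ) (hg : 2 ≤ g) :
    (∃ ρ : SurfaceGroup g →* SL, IsQF ρ ∧ IsFuchsian ρ) ∧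
    (∃ U : (SurfaceGroup g →* SL) → Ultrafilter ℝ, ∀ ρ, IsQF ρ → Adapted (U ρ) ρ) ∧
    ∃ D : ℝ, 0 < D ∧ ∀ U : (SurfaceGroup g →* SL) → Ultrafilter ℝ,
      (∀ ρ, IsQF ρ → Adapted (U ρ) ρ) → ∀ ρ : SurfaceGroup g →* SL, IsQF ρ →
        ∃ σ : SurfaceGroup g →* SL, IsQF σ ∧ IsFuchsian σ ∧
          pressureDist U ρ σ ≤ ENNReal.ofReal D :=
  Pool.Agent.Helper17.QD.final g hg

end Pool.Agent.Results.MP_d112a4_gt.CoarseDensity
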