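import Pool.Agent.Helper35.PQF.All3

set_option autoImplicit false

namespace Pool.Agent.Results.MP_d112a4_gt.Detour

open Pool.Agent.Helper35.PM Filter Set MeasureTheory Topology
open scoped ENNReal

/-- Let `F(z, w)` be a holomorphic bidisc in quasifuchsian space.  The pressure distance between `F(0,0)` and
`F(z_L, 0)` is at most `3` plus the energies of the two random rays `F(0, ·)`, `F(z_L, ·)` along scales
`1 = y₀ ≥ y₁ ≥ … ≥ y_n` plus the mean cost of the crossings `F(·, w)`, `|w| = e^{-y_n}`.  If the circle means of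
`(2 - h)/h` along `F(0, ·)` and `F(z_L, ·)` are at most `C (1 + log(1/y))^{-a}`, `a > 1`, and the mean cost of the
crossings tends to `0`, then the distance is at most `3 + 2 √C / (1 - 2^{-(a-1)/2})`. -/
theorem result (g : ℕ) (hg : 2 ≤ g) :
    (∃ U : (SurfaceGroup g →* SL) → Ultrafilter ℝ, ∀ ρ, IsQF ρ → Adapted (U ρ) ρ) ∧
    ∀ U : (SurfaceGroup g →* SL) → Ultrafilter ℝ, (∀ ρ, IsQF ρ → Adapted (U ρ) ρ) →
      ∀ F : ℂ → ℂ → SurfaceGroup g →* SL,
      (∀ z ∈ Metric.ball (0 : ℂ) 1, HolDisc (F z)) →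
      (∀ w ∈ Metric.ball (0 : ℂ) 1, HolDisc (fun z => F z w)) →
      ∀ L : ℝ, 0 ≤ L →
      (∀ (n : ℕ) (y : ℕ → ℝ), y 0 = 1 → Antitone y → (∀ k, 0 < y k) →
        pressureDist U (F 0 0) (F (zt L) 0) ≤ ENNReal.ofReal
          (3 + (∑ k ∈ Finset.range n, (Real.sqrt (mdef (F 0) (y k)) +
              Real.sqrt (mdef (F (zt L)) (y k))) * Real.sqrt (Real.log (y k / y (k + 1)))) +
            (2 * Real.pi)⁻¹ * ∫ θ in (0 : ℝ)..(2 * Real.pi),
              cost (fun z => F z (pt (-(y n)) θ)) L)) ∧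
      ∀ C a : ℝ, 0 ≤ C → 1 < a →
        (∀ y : ℝ, 0 < y → y ≤ 1 → mdef (F 0) y ≤ C * (1 + Real.log (1 / y)) ^ (-a) ∧
          mdef (F (zt L)) y ≤ C * (1 + Real.log (1 / y)) ^ (-a)) →
        Tendsto (fun y : ℝ => ∫ θ in (0 : ℝ)..(2 * Real.pi),
          cost (fun z => F z (pt (-y) θ)) L) (𝓝[>] 0) (𝓝 0) →
        pressureDist U (F 0 0) (F (zt L) 0) ≤ ENNReal.ofReal
          (3 + 2 * Real.sqrt C / (1 - (2 : ℝ) ^ (-(a - 1) / 2))) :=
  ⟨exists_family g hg, fun U hU F hF hF' L hL =>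
    ⟨fun n y h0 ha hp => dt_ g hg U hU F hF hF' L hL n y h0 ha hp,
      fun C a hC ha h1 h2 => dc_ g hg U hU C a hC ha F hF hF' L hL h1 h2⟩⟩

end Pool.Agent.Results.MP_d112a4_gt.Detour
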