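import Pool.Agent.Helper35.PQF.All2

set_option autoImplicit false

namespace Pool.Agent.Results.MP_d112a4_gt.KobayashiBound

open Pool.Agent.Helper35.PM Filter Set

/-- For every holomorphic disc `f` in quasifuchsian space and `L ≥ 0`, the pressure distance between `f(0)` and the
point `f(z_L)` at hyperbolic distance `L` is at most `√(S (S + ψ(0) + ψ(L)) / 2)`, where
`ψ(t) = √(2 - h(f(z_t)))` and `S = ∫₀ᴸ ψ`.  In particular every quasifuchsian representation which lies on a holomorphic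
disc at hyperbolic distance at most `R` from a Fuchsian one is at pressure distance at most `√(R (R + 2))` from the
Fuchsian locus. -/
theorem result (g : ℕ) (hg : 2 ≤ g) :
    (∃ U : (SurfaceGroup g →* SL) → Ultrafilter ℝ, ∀ ρ, IsQF ρ → Adapted (U ρ) ρ) ∧
    ∀ U : (SurfaceGroup g →* SL) → Ultrafilter ℝ, (∀ ρ, IsQF ρ → Adapted (U ρ) ρ) →
      (∀ f : ℂ → SurfaceGroup g →* SL, HolDisc f → ∀ L : ℝ, 0 ≤ L →
        pressureDist U (f 0) (f (zt L)) ≤ ENNReal.ofReal (Real.sqrt
          ((∫ t in (0 : ℝ)..L, Real.sqrt (2 - ent (f (zt t)))) *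
            ((∫ t in (0 : ℝ)..L, Real.sqrt (2 - ent (f (zt t)))) +
              Real.sqrt (2 - ent (f (zt 0))) + Real.sqrt (2 - ent (f (zt L)))) / 2))) ∧
      ∀ (R : ℝ) (ρ : SurfaceGroup g →* SL),
        (∃ f : ℂ → SurfaceGroup g →* SL, HolDisc f ∧ f 0 = ρ ∧
          ∃ L ∈ Icc 0 R, IsFuchsian (f (zt L))) →
        ∃ σ : SurfaceGroup g →* SL, IsQF σ ∧ IsFuchsian σ ∧
          pressureDist U ρ σ ≤ ENNReal.ofReal (Real.sqrt (R * (R + 2))) :=
  ⟨exists_family g hg, fun U hU => ⟨fun f hf L hL => f4_ g hg U hU f hf L hL,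
    fun R ρ h => universal g hg U hU R ρ h⟩⟩

end Pool.Agent.Results.MP_d112a4_gt.KobayashiBound
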